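import Pool.Agent.Y92.ZX.Stm
import Pool.Agent.Y226.ZG.Loc3

/-!
# The exceptional case
-/

set_option autoImplicit false
set_option linter.unusedSectionVars false

open UpperHalfPlane H294ZP Polynomial

namespace Pool.Agent.Y290.ZX

open Pool.Agent.Y226 Pool.Agent.Y226.ZG Pool.Agent.Y92.ZX

section basic

variable {C : Type} [NormedField C] [IsUltrametricDist C]

/-- polynomials with integral coefficients are nonexpansive -/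
theorem E2_sub_le {p : ℕ} [hpf : Fact p.Prime] (g : (Nr C p)[X][X]) {x y x' y' : C} {δ : ℝ}
    (hδ : 0 ≤ δ) (hx : ‖x‖ ≤ 1) (hy : ‖y‖ ≤ 1) (hx' : ‖x'‖ ≤ 1) (hy' : ‖y'‖ ≤ 1)
    (h1 : ‖x - x'‖ ≤ δ) (h2 : ‖y - y'‖ ≤ δ) :
    ‖E2 (Nr C p).subtype x y g - E2 (Nr C p).subtype x' y' g‖ ≤ δ := by
  obtain ⟨d, hd⟩ := exists_BD g
  rw [E2_eq_sum hd, E2_eq_sum hd, ← Finset.sum_sub_distrib]
  refine nsum_le _ _ hδ fun m _ => ?_
  have e1 : (Nr C p).subtype (cf g m) * x ^ m.1 * y ^ m.2 -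
      (Nr C p).subtype (cf g m) * x' ^ m.1 * y' ^ m.2 =
      (Nr C p).subtype (cf g m) * (x ^ m.1 * y ^ m.2 - x' ^ m.1 * y' ^ m.2) := by ring
  rw [e1]
  refine nmul_le (Nr_le (cf g m).2) ?_
  exact nmul_sub_mul (npow_le hx _) (npow_le hy' _) (npow_sub_pow hx hx' h1 _)
    (npow_sub_pow hy hy' h2 _)

/-- inverses of elements of norm one -/
theorem ninv_sub {x y : C} {δ : ℝ} (hx : ‖x‖ = 1) (hy : ‖y‖ = 1) (h : ‖x - y‖ ≤ δ) :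
    ‖x⁻¹ - y⁻¹‖ ≤ δ := by
  have hx0 : x ≠ 0 := norm_pos_iff.1 (by rw [hx]; exact one_pos)
  have hy0 : y ≠ 0 := norm_pos_iff.1 (by rw [hy]; exact one_pos)
  have e : x⁻¹ - y⁻¹ = -((x - y) * (x⁻¹ * y⁻¹)) := by
    field_simp
    ring
  rw [e, norm_neg]
  refine nmul_le' h ?_
  rw [norm_mul, norm_inv, norm_inv, hx, hy, inv_one, one_mul]

theorem Nr_of_small {p : ℕ} [hpf : Fact p.Prime] (hp1 : ‖(p : C)‖ < 1) {r : C}
    (hr : ‖r‖ ≤ ‖(p : C)‖) : r ∈ Nr C p := by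
  refine ⟨hr.trans hp1.le, 1, one_pos, ?_⟩
  rw [pow_one]
  refine nsub_le ?_ hr
  rw [norm_pow]
  exact (pow_le_of_le_one (norm_nonneg _) (hr.trans hp1.le) hpf.out.ne_zero).trans hr

theorem Nr_isUnit {p : ℕ} [hpf : Fact p.Prime] {c : Nr C p} (hc : ‖(c : C)‖ = 1) : IsUnit c := by
  refine IsUnit.of_mul_eq_one ⟨(c : C)⁻¹, Nr_inv c.2 hc⟩ ?_
  apply Subtype.ext
  have hc0 : (c : C) ≠ 0 := norm_pos_iff.1 (by rw [hc]; exact one_pos)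
  exact mul_inv_cancel₀ hc0

theorem Nr_unit_norm {p : ℕ} [hpf : Fact p.Prime] {c : Nr C p} (hc : IsUnit c) :
    ‖(c : C)‖ = 1 := by
  obtain ⟨s, hs⟩ := hc.exists_right_inv
  have h1 := congrArg (fun x : Nr C p => ‖(x : C)‖) hs
  have h1' : ‖(c : C)‖ * ‖(s : C)‖ = 1 := by
    rw [← norm_mul, ← norm_one (α := C)]
    exact h1
  have h2 := Nr_le c.2
  have h3 := Nr_le s.2
  have h4 := norm_nonneg (c : C)
  nlinarith

end basic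

section LB

variable {C : Type} [NormedField C] [IsUltrametricDist C] {p : ℕ} [hpf : Fact p.Prime]
  {k 𝕜 : Type} [Field k] [Field 𝕜] {n N W M d D B : ℕ} (𝓛 : LB C p k 𝕜 n N W M d D B)

theorem rho_zero {c : Nr C p} (h : 𝓛.ρ c = 0) : ‖(c : C)‖ ≤ ‖(p : C)‖ := by
  have h1 := 𝓛.hι c
  rw [h, map_zero] at h1
  exact Nr_gap c.2 ((𝓛.hker _).1 h1.symm)

theorem rho_ne {c : Nr C p} (h : 𝓛.ρ c ≠ 0) : ‖(c : C)‖ = 1 := by
  have h1 := 𝓛.hι c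
  by_contra hcon
  have h2 : ‖(c : C)‖ < 1 := lt_of_le_of_ne (Nr_le c.2) hcon
  have h3 := (𝓛.hker ⟨c, Nr_le c.2⟩).2 h2
  rw [h3] at h1
  exact h ((map_eq_zero 𝓛.ι).1 h1)

theorem Lam_gt [CompleteSpace C] [CharZero C] [IsAlgClosed C] (i : Fin n) : 1 < ‖((𝓛.Λ i : Cˣ) : C)‖ := by
  rw [Lam_norm 𝓛.hp0 𝓛.hpu (𝓛.hΛ i), inv_pow]
  refine (one_lt_inv₀ (pow_pos 𝓛.hp0 _)).2 ?_
  exact pow_lt_one₀ (norm_nonneg _) 𝓛.hp1 (Nat.mul_pos (𝓛.hw i).1 𝓛.he).ne'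

theorem Lam_inv [CompleteSpace C] [CharZero C] [IsAlgClosed C] (i : Fin n) : ‖((𝓛.Λ i : Cˣ) : C)‖⁻¹ ≤ ‖(p : C)‖ := by
  rw [Lam_norm 𝓛.hp0 𝓛.hpu (𝓛.hΛ i), inv_pow, inv_inv]
  exact pow_le_of_le_one (norm_nonneg _) 𝓛.hp1.le (Nat.mul_pos (𝓛.hw i).1 𝓛.he).ne'

theorem X_gt [CompleteSpace C] [CharZero C] [IsAlgClosed C] {i : Fin n} {x X : C} (hX : X = 𝓛.Λ i * x) (hx : ‖x‖ = 1) : 1 < ‖X‖ := by
  rw [hX, norm_mul, hx, mul_one]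
  exact Lam_gt 𝓛 i

/-- the Tate parameter to the first order -/
theorem q_lin [CompleteSpace C] [CharZero C] [IsAlgClosed C] {ψ : ZZ →+* C} (hψ : ∀ z, ‖ψ z‖ ≤ 1) {i : Fin n} {x X : C}
    (hX : X = 𝓛.Λ i * x) (hX1 : 1 < ‖X‖) :
    ‖qT ψ X * (𝓛.Λ i * x) - 1‖ ≤ ‖(p : C)‖ * ‖x‖⁻¹ := by
  rw [← hX]
  refine (qT_expand' hψ hX1).trans ?_
  rw [hX, norm_mul, mul_inv]
  exact mul_le_mul_of_nonneg_right (Lam_inv 𝓛 i) (inv_nonneg.2 (norm_nonneg _))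

/-- the relation made exact -/
theorem exact_rel {x : Fin n → C} (hx : 𝓛.Pt x) {v w : Fin n → ℤ} (hv : Bv M v) (hw : Bv M w)
    (hvw : LI v w) (hsupp : ∀ i, v i ≠ 0 ∨ w i ≠ 0 → ‖x i‖ = 1) {F₁ F₂ : C}
    (h1 : F₁ = ∏ i, x i ^ v i) (h2 : F₂ = ∏ i, x i ^ w i) :
    ∃ cc : ℕ × ℕ → OO C, (∀ m, ((cc m : OO C) : C) ∈ Nr C p) ∧
      NoCoset k d (fun m => 𝓛.red (cc m)) ∧
      ∑ m ∈ box d, ((cc m : OO C) : C) * F₁ ^ m.1 * F₂ ^ m.2 = 0 := by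
  obtain ⟨hmap, hBD⟩ := 𝓛.hht v w hv hw hvw
  have h3 := hx.r2 v w hv hw hvw hsupp
  rw [← h1, ← h2] at h3
  set R := E2 (Nr C p).subtype F₁ F₂ (𝓛.ht v w) with hR
  have hRsum := E2_eq_sum hBD (Nr C p).subtype F₁ F₂
  rw [← hR] at hRsum
  have hRN : R ∈ Nr C p := Nr_of_small 𝓛.hp1 h3
  let c0 : ℕ × ℕ → OO C := fun m => ⟨(cf (𝓛.ht v w) m : Nr C p), Nr_le (cf (𝓛.ht v w) m).2⟩
  let r0 : ℕ × ℕ → OO C := fun m => if m = (0, 0) then ⟨R, Nr_le hRN⟩ else 0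
  have hr0 : ∀ m, ((r0 m : OO C) : C) = if m = (0, 0) then R else 0 := by
    intro m
    by_cases hm : m = (0, 0)
    · simp [r0, hm]
    · simp [r0, hm]
  refine ⟨fun m => c0 m - r0 m, fun m => ?_, ?_, ?_⟩
  · have e1 : ((c0 m - r0 m : OO C) : C) = ((cf (𝓛.ht v w) m : Nr C p) : C) -
        (if m = (0, 0) then R else 0) := by
      rw [← hr0]
      rfl
    rw [e1]
    refine sub_mem (cf (𝓛.ht v w) m).2 ?_
    split_ifs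
    · exact hRN
    · exact zero_mem _
  · have h4 := 𝓛.𝓡.hNC v w hv hw hvw k 𝓛.ι
    have e1 : (fun m => 𝓛.red (c0 m - r0 m)) = fun m => 𝓛.ι (cf (𝓛.𝓡.h v w) m) := by
      funext m
      rw [map_sub, ← hmap, cf_map, 𝓛.hι]
      have e2 : 𝓛.red (r0 m) = 0 := by
        rw [𝓛.hker, hr0]
        split_ifs
        · exact h3.trans_lt 𝓛.hp1
        · rw [norm_zero]; exact one_pos
      rw [e2, sub_zero]
    rw [e1]
    exact h4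
  · have e1 : ∀ m ∈ box d, ((c0 m - r0 m : OO C) : C) * F₁ ^ m.1 * F₂ ^ m.2 =
        (Nr C p).subtype (cf (𝓛.ht v w) m) * F₁ ^ m.1 * F₂ ^ m.2 -
          (if m = (0, 0) then R else 0) := by
      intro m _
      have e2 : ((c0 m - r0 m : OO C) : C) = (Nr C p).subtype (cf (𝓛.ht v w) m) -
          (if m = (0, 0) then R else 0) := by
        rw [← hr0]
        rfl
      rw [e2]
      by_cases hm : m = (0, 0)
      · subst hm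
        simp
      · simp [hm]
    rw [Finset.sum_congr rfl e1, Finset.sum_sub_distrib, ← hRsum, Finset.sum_ite_eq', if_pos,
      sub_self]
    simp only [box, Finset.mem_product, Finset.mem_range]
    exact ⟨Nat.succ_pos _, Nat.succ_pos _⟩

end LB

end Pool.Agent.Y290.ZX
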