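import Pool.Agent.Y290.ZX.Exc

/-!
# The exceptional case: the theorem
-/

set_option autoImplicit false
set_option linter.unusedSectionVars false

open UpperHalfPlane H294ZP Polynomial

namespace Pool.Agent.Y290.ZX

open Pool.Agent.Y226 Pool.Agent.Y226.ZG Pool.Agent.Y92.ZX

theorem lt_of_pow_le {x r q : ℝ} {B E : ℕ} (hr0 : 0 < r) (hr1 : r < 1)
    (hrq : r ^ E = q) (hBE : B < E) (hx : x ^ B ≤ q) : x < r := by
  by_contra hcon
  push Not at hcon
  have h1 : r ^ B ≤ r ^ E := by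
    rw [hrq]
    exact (pow_le_pow_left₀ hr0.le hcon B).trans hx
  have h2 := (pow_le_pow_iff_right_of_lt_one₀ hr0 hr1).1 h1
  omega

/-- **Wild torsion when a bad coordinate is related to a good one.** -/
theorem exc : S_EXC := by
  intro C _ _ _ _ _ p hpf k 𝕜 _ _ n N W M d D B 𝓛 x hx Y X hX a s z e hz hC heX hn hs hzp
    j l m hja hla hma hjl y y' y'' hy hy' hy'' u u' u'' hu hu' hu'' hxj hxl hxm hYj hYl hYm
    hj1 hl1 hm1' A B₁ hA hB₁ hAW hBW ε t hε hG τ w a₁ b₁ c₁ d₁ hdet hw hτ hw'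
  classical
  have hM := 𝓛.hM
  have hb1 := 𝓛.b1
  have hb2 := 𝓛.b2
  have hb5 := 𝓛.b5
  have hb7 := 𝓛.b7
  have hb8 := 𝓛.b8
  have hB := 𝓛.hB
  have hp2 : p ≠ 2 := by omega
  have hψn : ∀ z, ‖(𝓛.φ.comp iA) z‖ ≤ 1 := psi_norm 𝓛.φ
  have hm1 : 1 < ‖𝓛.φ (X m)‖ := X_gt 𝓛 (hX m) hm1'
  have hC' : ∀ r, e (PowerSeries.C r) = (Nr C p).subtype r := hC
  have hNr : ∀ r : Nr C p, (Nr C p).subtype r ∈ Nr C p := fun r => r.2
  have hxap : ‖(p : C)‖ < ‖x a‖ := by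
    rcases hs with ⟨-, -, h⟩ | ⟨h, -, -⟩
    · rw [← h, norm_pow]; exact hzp
    · exact 𝓛.hp1.trans h
  obtain ⟨A', B', g, ζ, hA', hB', hAB', hg0, hζ, hq, hi1, -⟩ :=
    tate_rel (ψ := 𝓛.φ.comp iA) (i₀ := iA) hψn rA_comp rfl hdet hw hτ hw' hm1
  have hxa0 : x a ≠ 0 := norm_pos_iff.1 (𝓛.hp0.trans hxap)
  have hz0 : z ≠ 0 := by
    rintro rfl
    rcases hs with ⟨-, -, h⟩ | ⟨-, -, h⟩
    · rw [zero_pow 𝓛.hN.ne'] at h
      exact hxa0 h.symm
    · rw [zero_pow 𝓛.hN.ne'] at h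
      exact inv_ne_zero hxa0 h.symm
  set η : Cˣ := Units.mk0 z hz0 with hη
  obtain ⟨μ, hμ0, hμN, hμ⟩ : ∃ μ : ℤ, μ ≠ 0 ∧ μ.natAbs ≤ N ∧ ((η ^ μ : Cˣ) : C) = x a := by
    have hN := 𝓛.hN
    rcases hs with ⟨-, -, h⟩ | ⟨-, -, h⟩
    · refine ⟨N, by omega, by simp, ?_⟩
      rw [zpow_natCast, Units.val_pow_eq_pow_val, hη, Units.val_mk0, h]
    · refine ⟨-N, by omega, by simp, ?_⟩
      rw [zpow_neg, zpow_natCast, Units.val_inv_eq_inv_val, Units.val_pow_eq_pow_val, hη,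
        Units.val_mk0, h, inv_inv]
  have hqi0 := qT_ne hψn hi1
  have hqm0 := qT_ne hψn hm1
  have hζ0 : ζ ≠ 0 := hζ.ne_zero hg0.ne'
  -- the size of the root of unity
  have hρ0 : 0 < ‖(ε : C) - 1‖ := PData.root_pos hp2 𝓛.hp1 𝓛.hp0 hε
  have hρ1 : ‖(ε : C) - 1‖ < 1 := ppow_root_lt 𝓛.hp1 hε.pow_eq_one
  have hρE : ‖(ε : C) - 1‖ ^ (p ^ t * (p - 1)) = ‖(p : C)‖ := ppow_root_norm hp2 𝓛.hp1 hε
  set E := p ^ t * (p - 1) with hE
  have hEp : p - 1 ≤ E := Nat.le_mul_of_pos_left _ (Nat.pos_of_ne_zero (pow_ne_zero _ hpf.out.ne_zero))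
  set ρ₁ := ‖(ε : C) - 1‖ with hρ₁
  have hBE : B < E := by
    have : B ≤ B * (D + 1) := Nat.le_mul_of_pos_right _ (Nat.succ_pos _)
    omega
  set δ := max ‖x j - e (u : PowerSeries (Nr C p))‖ ‖x l - e (u' : PowerSeries (Nr C p))‖ with hδ
  have hδ0 : 0 ≤ δ := (norm_nonneg _).trans (le_max_left _ _)
  have hδB : δ ^ B ≤ ‖(p : C)‖ := by
    rcases max_choice ‖x j - e (u : PowerSeries (Nr C p))‖
      ‖x l - e (u' : PowerSeries (Nr C p))‖ with h | h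
    · rw [hδ, h]; exact hxj
    · rw [hδ, h]; exact hxl
  have hδρ : δ < ρ₁ := lt_of_pow_le hρ0 hρ1 hρE hBE hδB
  have hpρ : ‖(p : C)‖ < ρ₁ := by
    refine lt_of_pow_le hρ0 hρ1 hρE hBE ?_
    exact pow_le_of_le_one (norm_nonneg _) 𝓛.hp1.le hB.ne'
  have heu : ‖e (u : PowerSeries (Nr C p))‖ = 1 := Loc.ev_unit_norm hn u
  have heu' : ‖e (u' : PowerSeries (Nr C p))‖ = 1 := Loc.ev_unit_norm hn u'
  -- the approximation of `F`
  set Fs : PowerSeries (Nr C p) := (u' : PowerSeries (Nr C p)) ^ B₁ *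
    ((u⁻¹ : (PowerSeries (Nr C p))ˣ) : PowerSeries (Nr C p)) ^ A with hFs
  have hFclose : ‖((Y l ^ B₁ * (Y j ^ A)⁻¹ : Cˣ) : C) - e Fs‖ ≤ δ := by
    have h1 : e ((u⁻¹ : (PowerSeries (Nr C p))ˣ) : PowerSeries (Nr C p)) =
        (e (u : PowerSeries (Nr C p)))⁻¹ := by
      apply eq_inv_of_mul_eq_one_left
      rw [← map_mul, ← Units.val_mul, inv_mul_cancel, Units.val_one, map_one]
    rw [Units.val_mul, Units.val_pow_eq_pow_val, Units.val_inv_eq_inv_val,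
      Units.val_pow_eq_pow_val, hFs, map_mul, map_pow, map_pow, h1, hYl, hYj, ← inv_pow]
    refine nmul_sub_mul (npow_le hl1.le _) (npow_le ?_ _)
      (npow_sub_pow hl1.le heu'.le (le_max_right _ _) _)
      (npow_sub_pow ?_ ?_ (ninv_sub hj1 heu (le_max_left _ _)) _)
    · rw [norm_inv, heu, inv_one]
    · rw [norm_inv, hj1, inv_one]
    · rw [norm_inv, heu, inv_one]
  have hFsu : IsUnit (PowerSeries.coeff 0 Fs) := by
    have h1 := Loc.unit_coeff (u' ^ B₁ * (u⁻¹) ^ A)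
    rwa [Units.val_mul, Units.val_pow_eq_pow_val, Units.val_pow_eq_pow_val] at h1
  have hρz : ρ₁ ≤ ‖z‖ := by
    have h1 : ‖((Y l ^ B₁ * (Y j ^ A)⁻¹ : Cˣ) : C) -
        (Nr C p).subtype (PowerSeries.coeff 0 Fs)‖ ≤ max δ ‖z‖ := by
      have e1 : ((Y l ^ B₁ * (Y j ^ A)⁻¹ : Cˣ) : C) - (Nr C p).subtype (PowerSeries.coeff 0 Fs) =
          (((Y l ^ B₁ * (Y j ^ A)⁻¹ : Cˣ) : C) - e Fs) +
            (e Fs - (Nr C p).subtype (PowerSeries.coeff 0 Fs)) := by ring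
      rw [e1]
      exact nadd_le (hFclose.trans (le_max_left _ _))
        ((ev_sub_le hC' heX hn hz.le _).trans (le_max_right _ _))
    have h2 := wild_near 𝓛.hp1 (hNr _) (Nr_unit_norm hFsu) h1 (max_lt (hδρ.trans hρ1) hz) hρ1 hG
    rcases le_max_iff.1 h2 with h3 | h3
    · rcases le_max_iff.1 h3 with h4 | h4
      · exact absurd hδρ (not_lt.2 h4)
      · exact h4
    · exact absurd hpρ (not_lt.2 h3)
  have hz0' : 0 < ‖z‖ := hρ0.trans_le hρz
  have hmapinv : ∀ (v : (PowerSeries (Nr C p))ˣ) (v' : (PowerSeries 𝕜)ˣ),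
      PowerSeries.map 𝓛.ρ (v : PowerSeries (Nr C p)) = (v' : PowerSeries 𝕜) →
      PowerSeries.map 𝓛.ρ ((v⁻¹ : (PowerSeries (Nr C p))ˣ) : PowerSeries (Nr C p)) =
        ((v'⁻¹ : (PowerSeries 𝕜)ˣ) : PowerSeries 𝕜) := by
    intro v v' h
    have h1 : PowerSeries.map 𝓛.ρ ((v⁻¹ : (PowerSeries (Nr C p))ˣ) : PowerSeries (Nr C p)) *
        (v' : PowerSeries 𝕜) = 1 := by
      rw [← h, ← map_mul, ← Units.val_mul, inv_mul_cancel, Units.val_one, map_one]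
    exact Units.eq_inv_of_mul_eq_one_left (by rw [mul_comm]; exact h1)
  -- the contact
  have halt := 𝓛.h𝓡.br a s j l hja.symm hla.symm hjl y hy y' hy' A hAW B₁ hBW hB₁
  rcases halt with ⟨m', hm'B, h1, h2⟩ | ⟨m', hm'0, hm'D, h1⟩
  · exfalso
    obtain ⟨g', hg'⟩ := Polynomial.map_surjective (mapRingHom 𝓛.ρ)
      (Polynomial.map_surjective 𝓛.ρ 𝓛.hρs) (𝓛.𝓡.g j false l)
    set q' := E2 (PowerSeries.C (R := Nr C p)) (u : PowerSeries (Nr C p))
      (u' : PowerSeries (Nr C p)) g' with hq'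
    have hmapq : PowerSeries.map 𝓛.ρ q' = E2 (PowerSeries.C (R := 𝕜)) (y : PowerSeries 𝕜)
        (y' : PowerSeries 𝕜) (𝓛.𝓡.g j false l) := by
      rw [hq', map_E2, hu, hu', ← hg', E2_map]
      congr 1
      congr 1
      ext r
      simp
    have hcoef : ∀ i, 𝓛.ρ (PowerSeries.coeff i q') = PowerSeries.coeff i
        (E2 (PowerSeries.C (R := 𝕜)) (y : PowerSeries 𝕜) (y' : PowerSeries 𝕜)
          (𝓛.𝓡.g j false l)) := by
      intro i
      rw [← hmapq, PowerSeries.coeff_map]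
    have hc1 : ‖((PowerSeries.coeff m' q' : Nr C p) : C)‖ = 1 := by
      apply rho_ne 𝓛
      rw [hcoef]
      exact h1.ne_zero
    have hc2 : ∀ i < m', ‖((PowerSeries.coeff i q' : Nr C p) : C)‖ ≤ ‖(p : C)‖ := by
      intro i hi
      apply rho_zero 𝓛
      rw [hcoef]
      exact h2 i hi
    have heq : ‖e q'‖ ≤ max δ ‖(p : C)‖ := by
      have e1 : e q' = E2 (Nr C p).subtype (e (u : PowerSeries (Nr C p)))
          (e (u' : PowerSeries (Nr C p))) g' := by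
        rw [hq', map_E2]
        congr 1
        congr 1
        ext r
        exact hC r
      have h3 := hx.r1 j false l hjl (Or.inl ⟨rfl, hj1.le⟩) hl1.le g' hg'
      have h4 : xs x j false = x j := by simp [xs]
      rw [h4] at h3
      have h5 := E2_sub_le g' hδ0 hj1.le hl1.le heu.le heu'.le
        (le_max_left _ _) (le_max_right _ _)
      have e2 : e q' = E2 (Nr C p).subtype (x j) (x l) g' -
          (E2 (Nr C p).subtype (x j) (x l) g' - E2 (Nr C p).subtype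
            (e (u : PowerSeries (Nr C p))) (e (u' : PowerSeries (Nr C p))) g') := by
        rw [e1]; ring
      rw [e2]
      exact nsub_le (h3.trans (le_max_right _ _)) (h5.trans (le_max_left _ _))
    obtain ⟨Gs, hGs⟩ := ev_expand hC' heX hn q' (m' + 1)
    rw [Finset.sum_range_succ] at hGs
    have h6 : ‖z‖ ^ m' ≤ max (max δ ‖(p : C)‖) (‖z‖ ^ (m' + 1)) := by
      have h7 : ‖(Nr C p).subtype (PowerSeries.coeff m' q') * z ^ m'‖ = ‖z‖ ^ m' := by
        rw [norm_mul, norm_pow]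
        have : ‖(Nr C p).subtype (PowerSeries.coeff m' q')‖ = 1 := hc1
        rw [this, one_mul]
      rw [← h7]
      have e3 : (Nr C p).subtype (PowerSeries.coeff m' q') * z ^ m' =
          e q' - (∑ i ∈ Finset.range m', (Nr C p).subtype (PowerSeries.coeff i q') * z ^ i +
            z ^ (m' + 1) * e Gs) := by
        rw [hGs]; ring
      rw [e3]
      refine nsub_le (heq.trans (le_max_left _ _)) (nadd_le ?_ ?_)
      · refine (nsum_le _ _ (norm_nonneg _) fun i hi => ?_).trans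
          ((le_max_right _ _).trans (le_max_left _ _))
        exact nmul_le' (hc2 i (Finset.mem_range.1 hi)) (npow_le hz.le _)
      · refine (nmul_le' le_rfl (hn Gs)).trans ?_
        rw [norm_pow]
        exact le_max_right _ _
    have h7 : ‖z‖ ^ (m' + 1) < ‖z‖ ^ m' := pow_lt_pow_right_of_lt_one₀ hz0' hz (Nat.lt_succ_self _)
    have h8 : ‖z‖ ^ m' ≤ max δ ‖(p : C)‖ := by
      rcases le_max_iff.1 h6 with h | h
      · exact h
      · exact absurd h7 (not_lt.2 h)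
    have h9 : (‖z‖ ^ m') ^ B ≤ ‖(p : C)‖ := by
      rcases le_max_iff.1 h8 with h | h
      · exact (pow_le_pow_left₀ (by positivity) h B).trans hδB
      · exact (pow_le_pow_left₀ (by positivity) h B).trans
          (pow_le_of_le_one (norm_nonneg _) 𝓛.hp1.le hB.ne')
    have h10 : ρ₁ ^ (m' * B) ≤ ρ₁ ^ E := by
      rw [hρE, pow_mul]
      exact (pow_le_pow_left₀ (by positivity) (pow_le_pow_left₀ hρ0.le hρz m') B).trans h9
    have h11 := (pow_le_pow_iff_right_of_lt_one₀ hρ0 hρ1).1 h10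
    have h12 : m' * B ≤ B ^ 2 := by
      rw [sq]
      exact Nat.mul_le_mul_right _ hm'B
    omega
  -- the second alternative
  have hmapF : PowerSeries.map 𝓛.ρ Fs = (y' : PowerSeries 𝕜) ^ B₁ *
      ((y⁻¹ : (PowerSeries 𝕜)ˣ) : PowerSeries 𝕜) ^ A := by
    rw [hFs, map_mul, map_pow, map_pow, hu', hmapinv u y hu]
  have hFsm : ∃ m, 0 < m ∧ m ≤ D ∧ IsUnit (PowerSeries.coeff m Fs) := by
    refine ⟨m', hm'0, hm'D, ?_⟩
    apply Nr_isUnit
    apply rho_ne 𝓛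
    rw [← PowerSeries.coeff_map, hmapF]
    exact h1.ne_zero
  obtain ⟨f, hf, hfD, w₁, hw₁, hw₁n, hcon0⟩ := ps_contact (p := p) hC' heX hn hNr hz hFsm
  have hcon : ‖((Y l ^ B₁ * (Y j ^ A)⁻¹ : Cˣ) : C) - (Nr C p).subtype (PowerSeries.coeff 0 Fs) -
      w₁ * z ^ f‖ ≤ max ‖(p : C)‖ (‖z‖ ^ (f + 1)) := by
    have e1 : ((Y l ^ B₁ * (Y j ^ A)⁻¹ : Cˣ) : C) - (Nr C p).subtype (PowerSeries.coeff 0 Fs) -
        w₁ * z ^ f = (((Y l ^ B₁ * (Y j ^ A)⁻¹ : Cˣ) : C) - e Fs) +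
          (e Fs - (Nr C p).subtype (PowerSeries.coeff 0 Fs) - w₁ * z ^ f) := by ring
    rw [e1]
    refine nadd_le (hFclose.trans ?_) hcon0
    have h3 : δ ≤ ‖z‖ ^ (D + 1) := by
      have h4 : δ ^ B ≤ (‖z‖ ^ (D + 1)) ^ B := by
        rw [← pow_mul]
        refine hδB.trans ?_
        rw [← hρE]
        refine le_trans ?_ (pow_le_pow_left₀ hρ0.le hρz _)
        refine pow_le_pow_of_le_one hρ0.le hρ1.le ?_
        have : (D + 1) * B = B * (D + 1) := mul_comm _ _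
        omega
      exact (pow_le_pow_iff_left₀ hδ0 (by positivity) hB.ne').1 h4
    refine (h3.trans ?_).trans (le_max_right _ _)
    exact pow_le_pow_of_le_one hz0'.le hz.le (by omega)
  have hxj0 : x j ≠ 0 := by rw [← hYj]; exact (Y j).ne_zero
  have hzpow : ∀ i, 𝓛.Λ i * 𝓛.pu ^ ((𝓛.w i : ℤ) * 𝓛.e) ∈ GG C p 0 le_rfl one_pos := by
    intro i
    have := 𝓛.hΛ i
    rwa [← zpow_natCast, Nat.cast_mul] at this
  refine wild_exc2 𝓛.red 𝓛.hker (W := W) 𝓛.b1 (by omega) 𝓛.b3 𝓛.b4 hb5 𝓛.hp0 𝓛.hp1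
    (η := η) (F := Y l ^ B₁ * (Y j ^ A)⁻¹) (Yl := Y m) hz hf hfD (hNr _) hw₁ hw₁n hcon hε hG
    ?_ hμ0 hμN 𝓛.he (𝓛.hw a).1 (𝓛.hw m).1 (𝓛.hw m).2 𝓛.hpu (hzpow a) (hzpow m)
    (qi := Units.mk0 _ hqi0) (ql := Units.mk0 _ hqm0) ?_ ?_ hAB' hB'
    (ζ := Units.mk0 ζ hζ0) hg0 (Units.ext hζ.pow_eq_one)
    (Units.ext (by
      rw [Units.val_mul, Units.val_pow_eq_pow_val, Units.val_pow_eq_pow_val]
      exact hq)) ?_
  · refine GG_of_close (hNr (PowerSeries.coeff 0 (u'' : PowerSeries (Nr C p))))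
      (Nr_unit_norm (Loc.unit_coeff u'')) ?_
    rw [hYm]
    have e1 : x m - (Nr C p).subtype (PowerSeries.coeff 0 (u'' : PowerSeries (Nr C p))) =
        (x m - e (u'' : PowerSeries (Nr C p))) + (e (u'' : PowerSeries (Nr C p)) -
          (Nr C p).subtype (PowerSeries.coeff 0 (u'' : PowerSeries (Nr C p)))) := by ring
    rw [e1]
    refine nadd_le ?_ (ev_sub_le hC' heX hn hz.le _)
    exact (lt_of_pow_le hρ0 hρ1 hρE hBE hxm).le.trans hρz
  · have h1 := q_lin 𝓛 hψn (hX a) hi1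
    rw [mul_assoc, Units.val_mul, Units.val_mul, hμ]
    exact h1
  · have h1 := q_lin 𝓛 hψn (hX m) hm1
    rw [hm1', inv_one, mul_one] at h1
    rw [mul_assoc, Units.val_mul, Units.val_mul, hYm]
    exact h1
  · intro c hc hcW
    have hv : Bv M (vec j l A B₁) := Bv_vec (by omega) (by omega) hjl
    have hw : Bv M (sing m c) := Bv_sing (by omega)
    have hvw : LI (vec j l A B₁) (sing m c) := LI_sing hjl hA hB₁ hc
    refine exact_rel 𝓛 hx hv hw hvw ?_ ?_ ?_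
    · intro i hi
      by_cases h1 : i = j
      · rw [h1]; exact hj1
      · by_cases h2 : i = l
        · rw [h2]; exact hl1
        · by_cases h3 : i = m
          · rw [h3]; exact hm1'
          · simp [vec, sing, h1, h2, h3] at hi
    · rw [prod_vec x hjl hxj0, Units.val_mul, Units.val_pow_eq_pow_val, Units.val_inv_eq_inv_val,
        Units.val_pow_eq_pow_val, hYj, hYl]
    · rw [prod_sing, Units.val_zpow_eq_zpow_val, hYm]

end Pool.Agent.Y290.ZX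

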